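import Pool.Agent.Lib.Helper4.CS.Grid

set_option autoImplicit false

open Finset

namespace Pool.Agent.Lib.Helper4.CS

variable {n : ℕ}

/-- The first `k` coordinates. -/
def Sk (n k : ℕ) : Finset (Fin n) := univ.filter fun i => i.val < k

theorem card_Sk {k : ℕ} (hk : k ≤ n) : (Sk n k).card = k := by
  unfold Sk
  rw [Fin.card_filter_val_lt]
  exact min_eq_right hk

/-- The cube of radius `R` in the first `k` coordinates. -/
noncomputable def IA (n k : ℕ) (R : ℤ) : Fin n → Finset ℤ := fun i => if i.val < k then Ico (-R) R else {0}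

/-- The sum over the facets of the `k`-dimensional cube. -/
noncomputable def DB (k : ℕ) (R : ℤ) (f : (Fin n → ℤ) → Finset (Fin n) → ZMod 2) : ZMod 2 :=
  ∑ i ∈ Sk n k, (BX (Function.update (IA n k R) i {-R}) ((Sk n k).erase i) f +
    BX (Function.update (IA n k R) i {R}) ((Sk n k).erase i) f)

theorem mem_Sk {k : ℕ} {i : Fin n} : i ∈ Sk n k ↔ i.val < k := by
  unfold Sk
  rw [mem_filter]
  exact ⟨fun h => h.2, fun h => ⟨mem_univ _, h⟩⟩

theorem Sk_succ {k : ℕ} (hk : k < n) : (Sk n (k + 1)).erase ⟨k, hk⟩ = Sk n k := by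
  ext i
  rw [mem_erase, mem_Sk, mem_Sk, Ne, Fin.ext_iff]
  simp only
  omega

theorem BX_add (A : Fin n → Finset ℤ) (S : Finset (Fin n))
    (f g : (Fin n → ℤ) → Finset (Fin n) → ZMod 2) :
    BX A S (fun w S => f w S + g w S) = BX A S f + BX A S g := by
  unfold BX
  rw [sum_add_distrib]

theorem BX_congr {A : Fin n → Finset ℤ} {S : Finset (Fin n)}
    {f g : (Fin n → ℤ) → Finset (Fin n) → ZMod 2} (h : ∀ w ∈ Fintype.piFinset A, f w S = g w S) :
    BX A S f = BX A S g := sum_congr rfl h

/-- The inductive step. -/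
theorem DB_step {s : (Fin n → ℤ) → Finset (Fin n) → Bool} {R : ℤ} (hR : 0 < R)
    (hs : ∀ w S, Sph R w S → s (nw w S) S = !(s w S)) {k : ℕ} (hk : k + 1 < n) (b : Bool) :
    DB (n := n) (k + 2) R (P s (k + 1) b) = DB (k + 1) R (P s k true) := by
  classical
  set κ : Fin n := ⟨k + 1, hk⟩ with hκ
  set T : Finset (Fin n) := Sk n (k + 1) with hT
  set S : Finset (Fin n) := Sk n (k + 2) with hS
  have hST : S.erase κ = T := Sk_succ hk
  have hκS : κ ∈ S := mem_Sk.2 (by simp [hκ])
  have hκT : κ ∉ T := fun h => by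
    have := mem_Sk.1 h
    simp [hκ] at this
  set J : Fin n → Finset ℤ := Function.update (IA n (k + 2) R) κ (Ico 0 R) with hJ
  set K : Fin n → Finset ℤ := Function.update (IA n (k + 2) R) κ (Ico (-R) 0) with hK
  have hIκ : IA n (k + 2) R κ = Ico (-R) R := by
    unfold IA
    rw [if_pos]
    simp [hκ]
  have hIi : ∀ i ∈ S, IA n (k + 2) R i = Ico (-R) R := by
    intro i hi
    unfold IA
    rw [if_pos (mem_Sk.1 hi)]
  have hcover : IA n (k + 2) R κ = Ico 0 R ∪ Ico (-R) 0 := by
    rw [hIκ]
    ext x
    simp only [mem_Ico, mem_union]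
    omega
  have hdis : Disjoint (Ico (0 : ℤ) R) (Ico (-R) 0) := by
    rw [disjoint_left]
    intro x hx hx'
    rw [mem_Ico] at hx hx'
    omega
  -- the facets of the upper half cube
  set l : Fin n → ℤ := Function.update (fun _ => -R) κ 0 with hl
  have hJS : ∀ i ∈ S, J i = Ico (l i) R := by
    intro i hi
    by_cases hiκ : i = κ
    · subst hiκ
      simp [hJ, hl]
    · simp only [hJ, hl, Function.update_of_ne hiκ, hIi i hi]
  have hlR : ∀ i ∈ S, l i ≤ R := by
    intro i _
    by_cases hiκ : i = κ
    · subst hiκ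
      simp [hl, hR.le]
    · simp only [hl, Function.update_of_ne hiκ]
      omega
  -- the sum over the boundary of the upper half cube vanishes
  have hV : ∑ i ∈ S, (BX (Function.update J i {l i}) (S.erase i) (dd (P s k true)) +
      BX (Function.update J i {R}) (S.erase i) (dd (P s k true))) = 0 := by
    rw [← stokes J l (fun _ => R) S hJS hlR]
    unfold BX
    exact sum_eq_zero fun w _ => dd_dd _ _ _
  have hVκ := add_sum_erase S (fun i => BX (Function.update J i {l i}) (S.erase i) (dd (P s k true)) +
      BX (Function.update J i {R}) (S.erase i) (dd (P s k true))) hκS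
  rw [hV, hST] at hVκ
  simp only [hl, Function.update_self] at hVκ
  -- the bottom
  have hbot : BX (Function.update J κ {0}) T (dd (P s k true)) = DB (k + 1) R (P s k true) := by
    have h1 : Function.update J κ {0} = IA n (k + 1) R := by
      funext i
      by_cases hiκ : i = κ
      · subst hiκ
        simp [IA, hκ]
      · have : i.val ≠ k + 1 := fun h => hiκ (Fin.ext h)
        simp only [hJ, Function.update_of_ne hiκ, IA]
        by_cases h : i.val < k + 1
        · rw [if_pos h, if_pos (by omega)]
        · rw [if_neg h, if_neg (by omega)]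
    rw [h1]
    unfold DB
    rw [← hT]
    refine stokes (IA n (k + 1) R) (fun _ => -R) (fun _ => R) T ?_ ?_ _
    · intro i hi
      unfold IA
      rw [if_pos (mem_Sk.1 hi)]
    · intro i _
      show -R ≤ R
      omega
  rw [hbot] at hVκ
  -- facets: pairs of opposite faces
  have hcard : ∀ i ∈ S, (S.erase i).card = k + 1 := by
    intro i hi
    rw [card_erase_of_mem hi, hS, card_Sk (by omega)]
    rfl
  have key : ∀ (c : ℤ) (A : Fin n → Finset ℤ) (i : Fin n), i ∈ S → (c = R ∨ c = -R) → A i = {c} →
      BX A (S.erase i) (P s (k + 1) b) + BX A (S.erase i) (P s (k + 1) (!b)) =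
      BX A (S.erase i) (dd (P s k true)) := by
    intro c A i hi _ _
    rw [← BX_add]
    refine BX_congr fun w _ => P_add s k w _ (hcard i hi) b
  have flip : ∀ (c : ℤ) (A A' : Fin n → Finset ℤ) (i : Fin n), i ∈ S → (c = R ∨ c = -R) →
      A' i = {c} →
      (∀ w, w ∈ Fintype.piFinset A → nw w (S.erase i) ∈ Fintype.piFinset A') →
      (∀ w, w ∈ Fintype.piFinset A' → nw w (S.erase i) ∈ Fintype.piFinset A) →
      BX A (S.erase i) (P s (k + 1) b) = BX A' (S.erase i) (P s (k + 1) (!b)) := by
    intro c A A' i hi hc hAi h1 h2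
    rw [BX_neg A A' (S.erase i) h1 h2]
    refine BX_congr fun w hw => ?_
    refine P_neg hs (k + 1) b w _ ⟨i, fun h => (mem_erase.1 h).1 rfl, ?_⟩
    have := Fintype.mem_piFinset.1 hw i
    rw [hAi, mem_singleton] at this
    rw [this]
    exact hc
  -- description of the opposite of a box
  have hmem : ∀ (c : ℤ) (i : Fin n), i ∈ S → i ≠ κ → ∀ w, w ∈ Fintype.piFinset (Function.update K i {c}) →
      nw w (S.erase i) ∈ Fintype.piFinset (Function.update J i {-c}) := by
    intro c i hi hiκ w hw
    rw [Fintype.mem_piFinset] at hw ⊢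
    intro j
    have hj := hw j
    by_cases hji : j = i
    · subst hji
      rw [Function.update_self, mem_singleton] at hj ⊢
      unfold nw
      rw [if_neg (fun h => (mem_erase.1 h).1 rfl), hj]
      ring
    · rw [Function.update_of_ne hji] at hj ⊢
      by_cases hjκ : j = κ
      · subst hjκ
        rw [hK, Function.update_self, mem_Ico] at hj
        rw [hJ, Function.update_self, mem_Ico]
        unfold nw
        rw [if_pos (mem_erase.2 ⟨hji, hκS⟩)]
        omega
      · rw [hK, Function.update_of_ne hjκ] at hj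
        rw [hJ, Function.update_of_ne hjκ]
        by_cases hjS : j ∈ S
        · rw [hIi j hjS, mem_Ico] at hj ⊢
          unfold nw
          rw [if_pos (mem_erase.2 ⟨hji, hjS⟩)]
          omega
        · have hI : IA n (k + 2) R j = {0} := by
            unfold IA
            rw [if_neg (fun h => hjS (mem_Sk.2 h))]
          rw [hI, mem_singleton] at hj ⊢
          unfold nw
          rw [if_neg (fun h => hjS (mem_of_mem_erase h)), hj]
          ring
  have hmem' : ∀ (c : ℤ) (i : Fin n), i ∈ S → i ≠ κ → ∀ w, w ∈ Fintype.piFinset (Function.update J i {c}) →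
      nw w (S.erase i) ∈ Fintype.piFinset (Function.update K i {-c}) := by
    intro c i hi hiκ w hw
    rw [Fintype.mem_piFinset] at hw ⊢
    intro j
    have hj := hw j
    by_cases hji : j = i
    · subst hji
      rw [Function.update_self, mem_singleton] at hj ⊢
      unfold nw
      rw [if_neg (fun h => (mem_erase.1 h).1 rfl), hj]
      ring
    · rw [Function.update_of_ne hji] at hj ⊢
      by_cases hjκ : j = κ
      · subst hjκ
        rw [hJ, Function.update_self, mem_Ico] at hj
        rw [hK, Function.update_self, mem_Ico]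
        unfold nw
        rw [if_pos (mem_erase.2 ⟨hji, hκS⟩)]
        omega
      · rw [hJ, Function.update_of_ne hjκ] at hj
        rw [hK, Function.update_of_ne hjκ]
        by_cases hjS : j ∈ S
        · rw [hIi j hjS, mem_Ico] at hj ⊢
          unfold nw
          rw [if_pos (mem_erase.2 ⟨hji, hjS⟩)]
          omega
        · have hI : IA n (k + 2) R j = {0} := by
            unfold IA
            rw [if_neg (fun h => hjS (mem_Sk.2 h))]
          rw [hI, mem_singleton] at hj ⊢
          unfold nw
          rw [if_neg (fun h => hjS (mem_of_mem_erase h)), hj]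
          ring
  have hmemκ : ∀ (c : ℤ) (w : Fin n → ℤ), w ∈ Fintype.piFinset (Function.update (IA n (k + 2) R) κ {c}) →
      nw w (S.erase κ) ∈ Fintype.piFinset (Function.update (IA n (k + 2) R) κ {-c}) := by
    intro c w hw
    rw [Fintype.mem_piFinset] at hw ⊢
    intro j
    have hj := hw j
    by_cases hjκ : j = κ
    · subst hjκ
      rw [Function.update_self, mem_singleton] at hj ⊢
      unfold nw
      rw [if_neg (fun h => (mem_erase.1 h).1 rfl), hj]
      ring
    · rw [Function.update_of_ne hjκ] at hj ⊢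
      by_cases hjS : j ∈ S
      · rw [hIi j hjS, mem_Ico] at hj ⊢
        unfold nw
        rw [if_pos (mem_erase.2 ⟨hjκ, hjS⟩)]
        omega
      · have hI : IA n (k + 2) R j = {0} := by
          unfold IA
          rw [if_neg (fun h => hjS (mem_Sk.2 h))]
        rw [hI, mem_singleton] at hj ⊢
        unfold nw
        rw [if_neg (fun h => hjS (mem_of_mem_erase h)), hj]
        ring
  -- the top and the bottom together
  have htop : BX (Function.update (IA n (k + 2) R) κ {-R}) (S.erase κ) (P s (k + 1) b) +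
      BX (Function.update (IA n (k + 2) R) κ {R}) (S.erase κ) (P s (k + 1) b) =
      BX (Function.update J κ {R}) T (dd (P s k true)) := by
    have h1 : Function.update J κ {R} = Function.update (IA n (k + 2) R) κ {R} := by
      rw [hJ, Function.update_idem]
    have h2 := flip R (Function.update (IA n (k + 2) R) κ {-R})
      (Function.update (IA n (k + 2) R) κ {R}) κ hκS (Or.inl rfl) (by simp)
      (fun w hw => by simpa using hmemκ (-R) w hw) (fun w hw => hmemκ R w hw)
    rw [h2, h1, ← hST, ← key R _ κ hκS (Or.inl rfl) (by simp), add_comm]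
  -- the walls
  have hwall : ∀ i ∈ S.erase κ, BX (Function.update (IA n (k + 2) R) i {-R}) (S.erase i) (P s (k + 1) b) +
      BX (Function.update (IA n (k + 2) R) i {R}) (S.erase i) (P s (k + 1) b) =
      BX (Function.update J i {-R}) (S.erase i) (dd (P s k true)) +
      BX (Function.update J i {R}) (S.erase i) (dd (P s k true)) := by
    intro i hi
    obtain ⟨hiκ, hiS⟩ := mem_erase.1 hi
    have hsplit : ∀ c : ℤ, BX (Function.update (IA n (k + 2) R) i {c}) (S.erase i) (P s (k + 1) b) =
        BX (Function.update J i {c}) (S.erase i) (P s (k + 1) b) +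
        BX (Function.update K i {c}) (S.erase i) (P s (k + 1) b) := by
      intro c
      rw [BX_split (Function.update (IA n (k + 2) R) i {c}) κ (Ico 0 R) (Ico (-R) 0) hdis
        (by rw [Function.update_of_ne (Ne.symm hiκ)]; exact hcover)]
      rw [Function.update_comm (Ne.symm hiκ), Function.update_comm (Ne.symm hiκ)]
    have hf1 := flip R (Function.update K i {-R}) (Function.update J i {R}) i hiS (Or.inl rfl)
      (by simp) (fun w hw => by simpa using hmem (-R) i hiS hiκ w hw)
      (fun w hw => hmem' R i hiS hiκ w hw)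
    have hf2 := flip (-R) (Function.update K i {R}) (Function.update J i {-R}) i hiS (Or.inr rfl)
      (by simp) (fun w hw => hmem R i hiS hiκ w hw)
      (fun w hw => by simpa using hmem' (-R) i hiS hiκ w hw)
    rw [hsplit (-R), hsplit R, hf1, hf2,
      ← key R (Function.update J i {R}) i hiS (Or.inl rfl) (by simp),
      ← key (-R) (Function.update J i {-R}) i hiS (Or.inr rfl) (by simp)]
    ring
  unfold DB
  rw [← hS, ← add_sum_erase S _ hκS, htop, sum_congr rfl hwall]
  -- conclude
  have hl' : ∀ i ∈ S.erase κ, (BX (Function.update J i {Function.update (fun _ => -R) κ 0 i}) (S.erase i)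
      (dd (P s k true)) + BX (Function.update J i {R}) (S.erase i) (dd (P s k true))) =
      BX (Function.update J i {-R}) (S.erase i) (dd (P s k true)) +
      BX (Function.update J i {R}) (S.erase i) (dd (P s k true)) := by
    intro i hi
    rw [Function.update_of_ne (mem_erase.1 hi).1]
  rw [hST] at hl' ⊢
  rw [sum_congr rfl hl'] at hVκ
  have e : ∀ a b c : ZMod 2, a + b + c = 0 → b + c = a := by decide
  have := e _ _ _ hVκ
  rw [this]
  rfl

/-- The start of the induction. -/
theorem DB_one {s : (Fin n → ℤ) → Finset (Fin n) → Bool} {R : ℤ}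
    (hs : ∀ w S, Sph R w S → s (nw w S) S = !(s w S)) (hn : 0 < n) (b : Bool) :
    DB (n := n) 1 R (P s 0 b) = 1 := by
  classical
  set κ : Fin n := ⟨0, hn⟩ with hκ
  have hS : Sk n 1 = {κ} := by
    ext i
    rw [mem_Sk, mem_singleton, Fin.ext_iff]
    simp only [hκ]
    omega
  have hpi : ∀ c : ℤ, Fintype.piFinset (Function.update (IA n 1 R) κ {c}) =
      {Function.update (fun _ => (0 : ℤ)) κ c} := by
    intro c
    ext w
    rw [Fintype.mem_piFinset, mem_singleton]
    constructor
    · intro h
      funext j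
      have hj := h j
      by_cases hjκ : j = κ
      · subst hjκ
        simpa using hj
      · rw [Function.update_of_ne hjκ] at hj ⊢
        unfold IA at hj
        have : ¬ j.val < 1 := fun h => hjκ (Fin.ext (by simp only [hκ]; omega))
        rw [if_neg this, mem_singleton] at hj
        exact hj
    · rintro rfl j
      by_cases hjκ : j = κ
      · subst hjκ
        simp
      · rw [Function.update_of_ne hjκ, Function.update_of_ne hjκ]
        unfold IA
        have : ¬ j.val < 1 := fun h => hjκ (Fin.ext (by simp only [hκ]; omega))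
        rw [if_neg this]
        simp
  unfold DB BX
  rw [hS, sum_singleton, hpi, hpi, sum_singleton, sum_singleton]
  have he : ({κ} : Finset (Fin n)).erase κ = ∅ := by simp
  rw [he]
  have h1 : Function.update (fun _ => (0 : ℤ)) κ (-R) =
      nw (Function.update (fun _ => (0 : ℤ)) κ R) ∅ := by
    funext j
    unfold nw
    by_cases hjκ : j = κ
    · subst hjκ
      simp
    · simp [hjκ]
  have hsph : Sph R (Function.update (fun _ => (0 : ℤ)) κ R) ∅ :=
    ⟨κ, by simp, by simp⟩
  rw [h1, P_neg hs 0 b _ _ hsph]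
  have h2 := P_zero_add s (Function.update (fun _ => (0 : ℤ)) κ R) ∅
  cases b
  · exact h2
  · rw [add_comm]; exact h2

theorem DB_all {s : (Fin n → ℤ) → Finset (Fin n) → Bool} {R : ℤ} (hR : 0 < R)
    (hs : ∀ w S, Sph R w S → s (nw w S) S = !(s w S)) (k : ℕ) : ∀ (_ : k < n) (b : Bool),
    DB (n := n) (k + 1) R (P s k b) = 1 := by
  induction k with
  | zero => intro hk b; exact DB_one hs hk b
  | succ k ih =>
    intro hk b
    rw [DB_step hR hs hk b]
    exact ih (by omega) true

/-- There is a face of dimension `n - 1` on the boundary with an alternating flag. -/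
theorem exists_face {s : (Fin n → ℤ) → Finset (Fin n) → Bool} {R : ℤ} (hR : 0 < R)
    (hs : ∀ w S, Sph R w S → s (nw w S) S = !(s w S)) (hn : 0 < n) :
    ∃ (w : Fin n → ℤ) (S : Finset (Fin n)), S.card = n - 1 ∧ Sph R w S ∧ P s (n - 1) true w S ≠ 0 := by
  classical
  have h := DB_all hR hs (n - 1) (by omega) true
  have hn1 : n - 1 + 1 = n := by omega
  rw [hn1] at h
  by_contra hcon
  push Not at hcon
  have h0 : DB (n := n) n R (P s (n - 1) true) = 0 := by
    unfold DB
    refine sum_eq_zero fun i hi => ?_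
    have hc : ((Sk n n).erase i).card = n - 1 := by
      rw [card_erase_of_mem hi, card_Sk le_rfl]
    have hz : ∀ c : ℤ, (c = R ∨ c = -R) →
        BX (Function.update (IA n n R) i {c}) ((Sk n n).erase i) (P s (n - 1) true) = 0 := by
      intro c hc'
      unfold BX
      refine sum_eq_zero fun w hw => ?_
      refine hcon w _ hc ⟨i, fun h => (mem_erase.1 h).1 rfl, ?_⟩
      have := Fintype.mem_piFinset.1 hw i
      rw [Function.update_self, mem_singleton] at this
      rw [this]
      exact hc'
    rw [hz _ (Or.inr rfl), hz _ (Or.inl rfl), add_zero]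
  rw [h0] at h
  exact absurd h (by decide)

/-- Magnitudes decrease along an alternating flag. -/
theorem mag {s : (Fin n → ℤ) → Finset (Fin n) → Bool} {R : ℤ}
    {m : (Fin n → ℤ) → Finset (Fin n) → ℕ}
    (h0 : ∀ w, Sph R w ∅ → m w ∅ + 2 ≤ n)
    (h1 : ∀ w S i, Sph R w S → i ∈ S → m w S ≤ m w (S.erase i) ∧
      (m w S = m w (S.erase i) → s w S = s w (S.erase i)))
    (h2 : ∀ w S i, Sph R w S → i ∈ S → m w S ≤ m (up w i) (S.erase i) ∧
      (m w S = m (up w i) (S.erase i) → s w S = s (up w i) (S.erase i))) (k : ℕ) :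
    ∀ (b : Bool) (w : Fin n → ℤ) (S : Finset (Fin n)), Sph R w S → S.card = k →
      P s k b w S ≠ 0 → s w S = b ∧ m w S + k + 2 ≤ n := by
  induction k with
  | zero =>
    intro b w S hw hS hP
    have hS0 : S = ∅ := card_eq_zero.1 hS
    subst hS0
    refine ⟨?_, h0 w hw⟩
    by_contra hne
    apply hP
    unfold P
    rw [if_neg hne]
  | succ k ih =>
    intro b w S hw hS hP
    have hP' : P s (k + 1) b w S = if s w S = b then dd (P s k (!b)) w S else 0 := rfl
    rw [hP'] at hP
    by_cases hb : s w S = b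
    · refine ⟨hb, ?_⟩
      rw [if_pos hb] at hP
      unfold dd at hP
      obtain ⟨i, hi, hne⟩ := exists_ne_zero_of_sum_ne_zero hP
      have hc : (S.erase i).card = k := by
        rw [card_erase_of_mem hi, hS]; rfl
      by_cases hA : P s k (!b) w (S.erase i) = 0
      · rw [hA, zero_add] at hne
        obtain ⟨hs', hm'⟩ := ih _ _ _ (hw.facet hi).2 hc hne
        obtain ⟨hle, heq⟩ := h2 w S i hw hi
        have : m w S ≠ m (up w i) (S.erase i) := by
          intro h
          have := heq h
          rw [hb, hs'] at this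
          cases b <;> simp at this
        omega
      · obtain ⟨hs', hm'⟩ := ih _ _ _ (hw.facet hi).1 hc hA
        obtain ⟨hle, heq⟩ := h1 w S i hw hi
        have : m w S ≠ m w (S.erase i) := by
          intro h
          have := heq h
          rw [hb, hs'] at this
          cases b <;> simp at this
        omega
    · rw [if_neg hb] at hP
      exact absurd rfl hP

/-- `v` is a vertex of the face `(w, S)`. -/
def InF (v w : Fin n → ℤ) (S : Finset (Fin n)) : Prop :=
  ∀ i, (i ∈ S → v i = w i ∨ v i = w i + 1) ∧ (i ∉ S → v i = w i)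

theorem InF.self (w : Fin n → ℤ) (S : Finset (Fin n)) : InF w w S :=
  fun _ => ⟨fun _ => Or.inl rfl, fun _ => rfl⟩

theorem InF.facet1 {v w : Fin n → ℤ} {S : Finset (Fin n)} {i : Fin n} (hi : i ∈ S)
    (h : InF v w (S.erase i)) : InF v w S := by
  intro j
  refine ⟨fun hj => ?_, fun hj => (h j).2 fun h' => hj (mem_of_mem_erase h')⟩
  by_cases hji : j = i
  · subst hji
    exact Or.inl ((h j).2 fun h' => (mem_erase.1 h').1 rfl)
  · exact (h j).1 (mem_erase.2 ⟨hji, hj⟩)

theorem InF.facet2 {v w : Fin n → ℤ} {S : Finset (Fin n)} {i : Fin n} (hi : i ∈ S)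
    (h : InF v (up w i) (S.erase i)) : InF v w S := by
  intro j
  by_cases hji : j = i
  · subst hji
    refine ⟨fun _ => Or.inr ?_, fun hj => absurd hi hj⟩
    have := (h j).2 fun h' => (mem_erase.1 h').1 rfl
    rw [this]
    simp [up]
  · have hup : up w i j = w j := by simp [up, hji]
    refine ⟨fun hj => ?_, fun hj => ?_⟩
    · have := (h j).1 (mem_erase.2 ⟨hji, hj⟩)
      rwa [hup] at this
    · have := (h j).2 fun h' => hj (mem_of_mem_erase h')
      rwa [hup] at this

theorem InF.neg {v w : Fin n → ℤ} {S : Finset (Fin n)} (h : InF v (nw w S) S) : InF (-v) w S := by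
  intro j
  refine ⟨fun hj => ?_, fun hj => ?_⟩
  · have := (h j).1 hj
    simp only [nw, if_pos hj] at this
    simp only [Pi.neg_apply]
    omega
  · have := (h j).2 hj
    simp only [nw, if_neg hj] at this
    simp only [Pi.neg_apply]
    omega

theorem InF.neg' {v w : Fin n → ℤ} {S : Finset (Fin n)} (h : InF v w S) : InF (-v) (nw w S) S := by
  apply InF.neg
  rwa [nw_nw]

/-- GRID FORM OF THE LUSTERNIK-SCHNIRELMANN THEOREM. -/
theorem gridLS (hn : 0 < n) {R : ℤ} (hR : 0 < R) (χ : (Fin n → ℤ) → ℕ) (hχ : ∀ v, χ v < n) :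
    ∃ (v v' : Fin n → ℤ) (i : Fin n), (v i = R ∨ v i = -R) ∧ v' i = -v i ∧
      (∀ j, -1 ≤ v j + v' j ∧ v j + v' j ≤ 1) ∧ χ v = χ v' := by
  classical
  by_contra hcon
  push Not at hcon
  -- two vertices of a face on the boundary
  have hprop : ∀ w S, Sph R w S → ∀ v v', InF v w S → InF v' w S → χ v ≠ χ (-v') := by
    rintro w S ⟨i, hiS, hiR⟩ v v' hv hv'
    have e1 := (hv i).2 hiS
    have e2 := (hv' i).2 hiS
    refine hcon v (-v') i (by rw [e1]; exact hiR) (by simp [e1, e2]) fun j => ?_
    simp only [Pi.neg_apply]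
    by_cases hj : j ∈ S
    · rcases (hv j).1 hj with h | h <;> rcases (hv' j).1 hj with h' | h' <;> rw [h, h'] <;> omega
    · rw [(hv j).2 hj, (hv' j).2 hj]
      omega
  have hex : ∀ (w : Fin n → ℤ) (S : Finset (Fin n)),
      ∃ c : ℕ, ∃ v, InF v w S ∧ (χ v = c ∨ χ (-v) = c) :=
    fun w S => ⟨χ w, w, InF.self w S, Or.inl rfl⟩
  let m : (Fin n → ℤ) → Finset (Fin n) → ℕ := fun w S => Nat.find (hex w S)
  have hm : ∀ w S, ∃ v, InF v w S ∧ (χ v = m w S ∨ χ (-v) = m w S) := fun w S =>
    Nat.find_spec (hex w S)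
  have hmin : ∀ w S v, InF v w S → m w S ≤ χ v ∧ m w S ≤ χ (-v) := fun w S v hv =>
    ⟨Nat.find_min' (hex w S) ⟨v, hv, Or.inl rfl⟩, Nat.find_min' (hex w S) ⟨v, hv, Or.inr rfl⟩⟩
  let s : (Fin n → ℤ) → Finset (Fin n) → Bool := fun w S => decide (∃ v, InF v w S ∧ χ v = m w S)
  have hst : ∀ w S, s w S = true ↔ ∃ v, InF v w S ∧ χ v = m w S := fun w S => by
    simp only [s, decide_eq_true_eq]
  have hsf : ∀ w S, Sph R w S → (s w S = false ↔ ∃ v, InF v w S ∧ χ (-v) = m w S) := by
    intro w S hw
    constructor
    · intro h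
      obtain ⟨v, hv, hv'⟩ := hm w S
      rcases hv' with hv' | hv'
      · have := (hst w S).2 ⟨v, hv, hv'⟩
        rw [h] at this
        exact absurd this (by decide)
      · exact ⟨v, hv, hv'⟩
    · rintro ⟨v, hv, hv'⟩
      by_contra h
      have h := (hst w S).1 (by simpa using h)
      obtain ⟨u, hu, hu'⟩ := h
      exact hprop w S hw u v hu hv (hu'.trans hv'.symm)
  have hms : ∀ w S, m (nw w S) S = m w S := by
    intro w S
    apply le_antisymm
    · obtain ⟨v, hv, hv'⟩ := hm w S
      obtain ⟨h1, h2⟩ := hmin (nw w S) S (-v) hv.neg'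
      rw [neg_neg] at h2
      rcases hv' with h | h
      · exact h ▸ h2
      · exact h ▸ h1
    · obtain ⟨v, hv, hv'⟩ := hm (nw w S) S
      obtain ⟨h1, h2⟩ := hmin w S (-v) hv.neg
      rw [neg_neg] at h2
      rcases hv' with h | h
      · exact h ▸ h2
      · exact h ▸ h1
  have hs : ∀ w S, Sph R w S → s (nw w S) S = !(s w S) := by
    intro w S hw
    by_cases h : s w S = true
    · rw [h]
      have hw' : Sph R (nw w S) S := by
        obtain ⟨i, hi, hiR⟩ := hw
        refine ⟨i, hi, ?_⟩
        simp only [nw, if_neg hi]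
        omega
      rw [Bool.not_true, hsf _ _ hw', hms]
      obtain ⟨v, hv, hv'⟩ := (hst w S).1 h
      exact ⟨-v, hv.neg', by rw [neg_neg]; exact hv'⟩
    · have h' : s w S = false := by simpa using h
      rw [h', Bool.not_false, hst, hms]
      obtain ⟨v, hv, hv'⟩ := (hsf w S hw).1 h'
      exact ⟨-v, hv.neg', hv'⟩
  obtain ⟨w, S, hS, hw, hP⟩ := exists_face hR hs hn
  have h0 : ∀ w, Sph R w ∅ → m w ∅ + 2 ≤ n := by
    intro w hw
    obtain ⟨h1, h2⟩ := hmin w ∅ w (InF.self w ∅)
    have h3 := hprop w ∅ hw w w (InF.self w ∅) (InF.self w ∅)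
    have h4 := hχ w
    have h5 := hχ (-w)
    omega
  have mono : ∀ w S w' S', Sph R w S → Sph R w' S' → (∀ v, InF v w' S' → InF v w S) →
      m w S ≤ m w' S' ∧ (m w S = m w' S' → s w S = s w' S') := by
    intro w S w' S' hw hw' hsub
    constructor
    · obtain ⟨v, hv, hv'⟩ := hm w' S'
      obtain ⟨h1, h2⟩ := hmin w S v (hsub v hv)
      rcases hv' with h | h
      · exact h ▸ h1
      · exact h ▸ h2
    · intro he
      by_cases h : s w' S' = true
      · obtain ⟨v, hv, hv'⟩ := (hst w' S').1 h
        rw [h, hst]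
        exact ⟨v, hsub v hv, by rw [he]; exact hv'⟩
      · have h' : s w' S' = false := by simpa using h
        obtain ⟨v, hv, hv'⟩ := (hsf w' S' hw').1 h'
        rw [h', hsf w S hw]
        exact ⟨v, hsub v hv, by rw [he]; exact hv'⟩
  have := (mag (s := s) (m := m) h0
    (fun w S i hw hi => mono w S w (S.erase i) hw (hw.facet hi).1 fun v hv => hv.facet1 hi)
    (fun w S i hw hi => mono w S (up w i) (S.erase i) hw (hw.facet hi).2 fun v hv => hv.facet2 hi)
    (n - 1) true w S hw hS hP).2
  omega

end Pool.Agent.Lib.Helper4.CS
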