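import Mathlib

/-!
# The block of dimension six

The sites are the points of the lattice `D_6^+` (scaled by two), its two classes modulo `D_6` having different
weights.  Every grid point goes to the nearest site.
-/

set_option autoImplicit false

open Finset

namespace Pool.Agent.Lib.Helper4.CS

/-- The sites. -/
def Site (a : Fin 6 → ℤ) : Prop := (∀ i, a i % 2 = a 0 % 2) ∧ (∑ i, a i) % 4 = (2 * a 0) % 4

/-- The centre (doubled). -/
def cen : Fin 6 → ℤ := ![1, 1, 1, 1, 1, -1]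

/-- The position of the grid point `w` relative to the site `a`. -/
def pos (w a : Fin 6 → ℤ) : Fin 6 → ℤ := fun i => 2 * w i + 7 * cen i - 14 * a i

/-- The power of the grid point `w` with respect to the site `a`. -/
def cost (w a : Fin 6 → ℤ) : ℤ := ∑ i, (pos w a i) ^ 2 + 196 * (a 0 % 2)

theorem cost_nonneg (w a : Fin 6 → ℤ) : 0 ≤ cost w a := by
  unfold cost
  have : 0 ≤ a 0 % 2 := Int.emod_nonneg _ (by norm_num)
  positivity

theorem exists_site (w : Fin 6 → ℤ) : ∃ a, Site a ∧ ∀ b, Site b → cost w a ≤ cost w b := by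
  classical
  have hex : ∃ k : ℕ, ∃ a, Site a ∧ (cost w a).toNat = k := ⟨_, 0, by
    unfold Site
    simp, rfl⟩
  obtain ⟨a, ha, hk⟩ := Nat.find_spec hex
  refine ⟨a, ha, fun b hb => ?_⟩
  have h1 := Nat.find_min' hex ⟨b, hb, rfl⟩
  rw [← hk] at h1
  have h2 := cost_nonneg w a
  have h3 := cost_nonneg w b
  omega

/-- A nearest site. -/
noncomputable def near (w : Fin 6 → ℤ) : Fin 6 → ℤ := (exists_site w).choose

theorem near_site (w : Fin 6 → ℤ) : Site (near w) := (exists_site w).choose_spec.1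

theorem near_le (w : Fin 6 → ℤ) {b : Fin 6 → ℤ} (hb : Site b) : cost w (near w) ≤ cost w b :=
  (exists_site w).choose_spec.2 b hb

theorem site_all {a : Fin 6 → ℤ} (ha : Site a) (i j : Fin 6) : a i % 2 = a j % 2 := by
  rw [ha.1 i, ha.1 j]

/-- Comparison with the sites which differ by a root. -/
theorem root_le {w a : Fin 6 → ℤ} (ha : Site a) (hmin : ∀ b, Site b → cost w a ≤ cost w b)
    {i j : Fin 6} (hij : i ≠ j) {s t : ℤ} (hs : s = 1 ∨ s = -1) (ht : t = 1 ∨ t = -1) :
    s * pos w a i + t * pos w a j ≤ 28 := by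
  set b : Fin 6 → ℤ := fun k => a k + (if k = i then 2 * s else 0) + (if k = j then 2 * t else 0) with hb
  have hb0 : b 0 % 2 = a 0 % 2 := by
    simp only [hb]
    split_ifs <;> omega
  have hbS : Site b := by
    refine ⟨fun k => ?_, ?_⟩
    · rw [hb0, ← ha.1 k]
      simp only [hb]
      split_ifs <;> omega
    · have h1 : ∑ k, b k = ∑ k, a k + 2 * s + 2 * t := by
        simp only [hb, sum_add_distrib, sum_ite_eq', mem_univ, if_true]
      rw [h1]
      have h2 := ha.2
      rcases hs with rfl | rfl <;> rcases ht with rfl | rfl <;> omega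
  have h1 := hmin b hbS
  unfold cost at h1
  rw [hb0] at h1
  have h2 : ∀ k, pos w b k = pos w a k - (if k = i then 28 * s else 0) - (if k = j then 28 * t else 0) := by
    intro k
    simp only [pos, hb]
    split_ifs <;> ring
  have h3 : ∑ k, pos w b k ^ 2 = ∑ k, pos w a k ^ 2 - 56 * (s * pos w a i) - 56 * (t * pos w a j) +
      784 * s ^ 2 + 784 * t ^ 2 := by
    have h4 : ∀ k, pos w b k ^ 2 = pos w a k ^ 2 - (if k = i then 56 * (s * pos w a i) else 0) -
        (if k = j then 56 * (t * pos w a j) else 0) + (if k = i then 784 * s ^ 2 else 0) +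
        (if k = j then 784 * t ^ 2 else 0) := by
      intro k
      rw [h2 k]
      by_cases hki : k = i
      · have hkj : k ≠ j := fun h => hij (hki ▸ h)
        subst hki
        simp only [if_true, if_neg hkj]
        ring
      · by_cases hkj : k = j
        · subst hkj
          simp only [if_true, if_neg hki]
          ring
        · simp only [if_neg hki, if_neg hkj]
          ring
    simp only [h4, sum_add_distrib, sum_sub_distrib, sum_ite_eq', mem_univ, if_true]
  rw [h3] at h1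
  have hs2 : s ^ 2 = 1 := by rcases hs with rfl | rfl <;> norm_num
  have ht2 : t ^ 2 = 1 := by rcases ht with rfl | rfl <;> norm_num
  rw [hs2, ht2] at h1
  linarith

theorem abs_le_28 {w a : Fin 6 → ℤ} (ha : Site a) (hmin : ∀ b, Site b → cost w a ≤ cost w b)
    {i j : Fin 6} (hij : i ≠ j) : |pos w a i| + |pos w a j| ≤ 28 := by
  have h1 := root_le ha hmin hij (Or.inl rfl) (Or.inl rfl)
  have h2 := root_le ha hmin hij (Or.inl rfl) (Or.inr rfl)
  have h3 := root_le ha hmin hij (Or.inr rfl) (Or.inl rfl)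
  have h4 := root_le ha hmin hij (Or.inr rfl) (Or.inr rfl)
  rcases abs_cases (pos w a i) with ⟨h, _⟩ | ⟨h, _⟩ <;>
    rcases abs_cases (pos w a j) with ⟨h', _⟩ | ⟨h', _⟩ <;> rw [h, h'] <;> linarith

/-- Comparison with the sites of the other class. -/
theorem spin_le {w a : Fin 6 → ℤ} (ha : Site a) (hmin : ∀ b, Site b → cost w a ≤ cost w b)
    {σ : Fin 6 → ℤ} (hσ : ∀ i, σ i = 1 ∨ σ i = -1) (hσ2 : (∑ i, σ i) % 4 = 2) :
    ∑ i, σ i * pos w a i ≤ 49 - 14 * (a 0 % 2) := by
  set b : Fin 6 → ℤ := fun k => a k + σ k with hb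
  have hpar : ∀ k, b k % 2 = 1 - a k % 2 := by
    intro k
    simp only [hb]
    rcases hσ k with h | h <;> rw [h] <;> omega
  have hbS : Site b := by
    refine ⟨fun k => ?_, ?_⟩
    · rw [hpar k, hpar 0, ha.1 k]
    · have h1 : ∑ k, b k = ∑ k, a k + ∑ k, σ k := by
        simp only [hb, sum_add_distrib]
      have h2 : b 0 = a 0 + σ 0 := rfl
      rw [h1, h2]
      have h3 := ha.2
      rcases hσ 0 with h | h <;> rw [h] <;> omega
  have h1 := hmin b hbS
  unfold cost at h1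
  rw [hpar 0] at h1
  have h3 : ∑ k, pos w b k ^ 2 = ∑ k, pos w a k ^ 2 - 28 * ∑ k, σ k * pos w a k + 1176 := by
    have h4 : ∀ k, pos w b k ^ 2 = pos w a k ^ 2 - 28 * (σ k * pos w a k) + 196 := by
      intro k
      have hσ1 : σ k ^ 2 = 1 := by rcases hσ k with h | h <;> rw [h] <;> norm_num
      have : pos w b k = pos w a k - 14 * σ k := by
        simp only [pos, hb]
        ring
      rw [this]
      linear_combination 196 * hσ1
    simp only [h4, sum_add_distrib, sum_sub_distrib, ← mul_sum]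
    simp
  rw [h3] at h1
  linarith

theorem aux_pm {x : ℤ} (h : x = 0 ∨ x = 1 ∨ x = -1) (hx : x ≠ 0) : -x = 1 ∨ -x = -1 := by
  omega

theorem aux_sum {A B C D x y : ℤ} (h1 : 28 * x - 2 ≤ A + B) (h2 : 28 * y - 2 ≤ C + D)
    (h3 : A + C ≤ 28) (h4 : B + D ≤ 28) : x + y ≤ 2 := by
  omega

theorem aux_three {A B C D g : ℤ} (h1 : 14 * |g| - 2 ≤ A + B) (h3 : A + C ≤ 28) (h4 : B + D ≤ 28)
    (hC : 0 ≤ C) (hD : 0 ≤ D) (hg : g % 2 = 1) (hg1 : g ≠ 1) (hg2 : g ≠ -1) : |g| = 3 := by
  have h : 14 * |g| ≤ 58 := by linarith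
  rcases abs_cases g with ⟨e, _⟩ | ⟨e, _⟩ <;> rw [e] at h ⊢ <;> omega

theorem aux_one {A B C D g : ℤ} (h1 : 14 * 3 - 2 ≤ A + B) (h2 : 14 * |g| - 2 ≤ C + D)
    (h3 : A + C ≤ 28) (h4 : B + D ≤ 28) (hg : g % 2 = 1) : |g| = 1 := by
  have h : 14 * |g| ≤ 18 := by linarith
  rcases abs_cases g with ⟨e, _⟩ | ⟨e, _⟩ <;> rw [e] at h ⊢ <;> omega

theorem aux_abs {x y g c : ℤ} (hc : 0 < c) (h1 : -1 ≤ x + y) (h2 : x + y ≤ 1) :
    c * |g| - 2 ≤ |2 * (x + y) - c * g| := by
  rcases abs_cases g with ⟨h, _⟩ | ⟨h, _⟩ <;> rw [h]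
  · have := neg_abs_le (2 * (x + y) - c * g)
    linarith
  · have := le_abs_self (2 * (x + y) - c * g)
    linarith

/-- The block of forty-four points. -/
def Good (g : Fin 6 → ℤ) : Prop :=
  ((∀ i, g i = 1 ∨ g i = -1) ∧ (∑ i, g i) % 4 = 0) ∨
  ∃ i, (g i = 2 ∨ g i = -2) ∧ ∀ j, j ≠ i → g j = 0

theorem cen_cases (i : Fin 6) : cen i = 1 ∨ cen i = -1 := by
  unfold cen
  fin_cases i <;> simp

theorem cen_sum : ∑ i, cen i = 4 := by
  unfold cen
  simp [Fin.sum_univ_succ]

/-- Two sites of the same class. -/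
theorem same_class {w w' a a' : Fin 6 → ℤ} (ha : Site a) (ha' : Site a')
    (hmin : ∀ b, Site b → cost w a ≤ cost w b) (hmin' : ∀ b, Site b → cost w' a' ≤ cost w' b)
    (hw : ∀ j, -1 ≤ w j + w' j ∧ w j + w' j ≤ 1) (hc : a 0 % 2 = a' 0 % 2) :
    Good (a + a' - cen) := by
  set g : Fin 6 → ℤ := a + a' - cen with hg
  have hgi : ∀ i, g i = a i + a' i - cen i := fun i => rfl
  have hz : ∀ i, pos w a i + pos w' a' i = 2 * (w i + w' i) - 14 * g i := by
    intro i
    rw [hgi]
    unfold pos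
    ring
  have hodd : ∀ i, g i % 2 = 1 := by
    intro i
    rw [hgi]
    have h1 := ha.1 i
    have h2 := ha'.1 i
    rcases cen_cases i with h | h <;> rw [h] <;> omega
  have hsum : (∑ i, g i) % 4 = 0 := by
    have : ∑ i, g i = ∑ i, a i + ∑ i, a' i - 4 := by
      simp only [hgi, sum_sub_distrib, sum_add_distrib, cen_sum]
    rw [this]
    have h1 := ha.2
    have h2 := ha'.2
    omega
  have habs : ∀ i, 14 * |g i| - 2 ≤ |pos w a i| + |pos w' a' i| := by
    intro i
    have h1 := abs_add_le (pos w a i) (pos w' a' i)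
    rw [hz i] at h1
    exact (aux_abs (by norm_num) (hw i).1 (hw i).2).trans h1
  left
  refine ⟨?_, hsum⟩
  by_contra hcon
  push Not at hcon
  obtain ⟨i, hi1, hi2⟩ := hcon
  -- the entry i has absolute value three, the others have absolute value one
  have hne : ∀ j, j ≠ i → |pos w a i| + |pos w a j| ≤ 28 ∧ |pos w' a' i| + |pos w' a' j| ≤ 28 :=
    fun j hj => ⟨abs_le_28 ha hmin hj.symm, abs_le_28 ha' hmin' hj.symm⟩
  have hoi := hodd i
  have hai := habs i
  obtain ⟨k, hk⟩ : ∃ k : Fin 6, k ≠ i := exists_ne i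
  have hi3 : |g i| = 3 := aux_three hai (hne k hk).1 (hne k hk).2 (abs_nonneg _) (abs_nonneg _)
    hoi hi1 hi2
  have hj1 : ∀ j, j ≠ i → |g j| = 1 := by
    intro j hj
    rw [hi3] at hai
    exact aux_one hai (habs j) (hne j hj).1 (hne j hj).2 (hodd j)
  set σ : Fin 6 → ℤ := fun j => -Int.sign (g j) with hσ
  have hσ1 : ∀ j, σ j = 1 ∨ σ j = -1 := by
    intro j
    have h3 := hodd j
    simp only [hσ]
    rcases lt_trichotomy (g j) 0 with h | h | h
    · rw [Int.sign_eq_neg_one_of_neg h]; left; norm_num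
    · omega
    · rw [Int.sign_eq_one_of_pos h]; right; norm_num
  have hσg : ∀ j, g j = -(if j = i then 3 else 1) * σ j := by
    intro j
    have h1 : |g j| = if j = i then 3 else 1 := by
      split_ifs with h
      · rw [h]; exact hi3
      · exact hj1 j h
    rw [← h1]
    simp only [hσ]
    have := Int.sign_mul_abs (g j)
    linarith
  have hσs : ∑ j, g j = -∑ j, σ j - 2 * σ i := by
    have : ∀ j, g j = -σ j - (if j = i then 2 * σ i else 0) := by
      intro j
      rw [hσg j]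
      split_ifs with h
      · rw [h]; ring
      · ring
    simp only [this, sum_sub_distrib, sum_neg_distrib, sum_ite_eq', mem_univ, if_true]
  have hσ2 : (∑ j, σ j) % 4 = 2 := by
    rw [hσs] at hsum
    rcases hσ1 i with h | h <;> rw [h] at hsum <;> omega
  have hA := spin_le ha hmin hσ1 hσ2
  have hB := spin_le ha' hmin' hσ1 hσ2
  have hC : ∑ j, σ j * pos w a j + ∑ j, σ j * pos w' a' j = ∑ j, σ j * (2 * (w j + w' j) - 14 * g j) := by
    rw [← sum_add_distrib]
    refine sum_congr rfl fun j _ => ?_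
    rw [← mul_add, hz j]
  have hD : ∀ j, 14 * (if j = i then 3 else 1) - 2 ≤ σ j * (2 * (w j + w' j) - 14 * g j) := by
    intro j
    rw [hσg j]
    have h2 := hw j
    rcases hσ1 j with h | h <;> rw [h] <;> split_ifs <;> omega
  have hE : ∑ j : Fin 6, (14 * (if j = i then 3 else 1) - 2 : ℤ) = 100 := by
    have : ∀ j : Fin 6, (14 * (if j = i then 3 else 1) - 2 : ℤ) = 12 + (if j = i then 28 else 0) := by
      intro j
      split_ifs <;> norm_num
    simp only [this, sum_add_distrib, sum_ite_eq', mem_univ, if_true]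
    simp
  have hF := sum_le_sum fun j (_ : j ∈ (univ : Finset (Fin 6))) => hD j
  rw [hE, ← hC] at hF
  have := Int.emod_nonneg (a 0) (by norm_num : (2 : ℤ) ≠ 0)
  have := Int.emod_nonneg (a' 0) (by norm_num : (2 : ℤ) ≠ 0)
  linarith

/-- The sum over six distinct indices. -/
theorem sum_six {i j k l m p : Fin 6} (h : ({i, j, k, l, m, p} : Finset (Fin 6)) = univ)
    (f : Fin 6 → ℤ) : ∑ x, f x = f i + f j + f k + f l + f m + f p := by
  have hc : ({i, j, k, l, m, p} : Finset (Fin 6)).card = 6 := by rw [h]; rfl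
  have hn1 : i ∉ ({j, k, l, m, p} : Finset (Fin 6)) := fun hi => by
    rw [insert_eq_of_mem hi] at hc
    have := card_le_five (a := j) (b := k) (c := l) (d := m) (e := p)
    omega
  rw [card_insert_of_notMem hn1] at hc
  have hn2 : j ∉ ({k, l, m, p} : Finset (Fin 6)) := fun hi => by
    rw [insert_eq_of_mem hi] at hc
    have := card_le_four (a := k) (b := l) (c := m) (d := p)
    omega
  rw [card_insert_of_notMem hn2] at hc
  have hn3 : k ∉ ({l, m, p} : Finset (Fin 6)) := fun hi => by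
    rw [insert_eq_of_mem hi] at hc
    have := card_le_three (a := l) (b := m) (c := p)
    omega
  rw [card_insert_of_notMem hn3] at hc
  have hn4 : l ∉ ({m, p} : Finset (Fin 6)) := fun hi => by
    rw [insert_eq_of_mem hi] at hc
    have := card_le_two (a := m) (b := p)
    omega
  rw [card_insert_of_notMem hn4] at hc
  have hn5 : m ∉ ({p} : Finset (Fin 6)) := fun hi => by
    rw [insert_eq_of_mem hi, card_singleton] at hc
    omega
  rw [← h, sum_insert hn1, sum_insert hn2, sum_insert hn3, sum_insert hn4, sum_insert hn5,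
    sum_singleton]
  ring

theorem exists_six : ∀ i j k : Fin 6, i ≠ j → i ≠ k → j ≠ k → ∃ l m p : Fin 6,
    ({i, j, k, l, m, p} : Finset (Fin 6)) = univ ∧
    (l ≠ i ∧ l ≠ j ∧ l ≠ k) ∧ (m ≠ i ∧ m ≠ j ∧ m ≠ k ∧ m ≠ l) ∧
    (p ≠ i ∧ p ≠ j ∧ p ≠ k ∧ p ≠ l ∧ p ≠ m) := by
  intro i j k hij hik hjk
  obtain ⟨l, hl⟩ : ∃ l, l ∉ ({i, j, k} : Finset (Fin 6)) := by
    by_contra h
    push Not at h
    have h1 := card_le_card (fun x _ => h x : (univ : Finset (Fin 6)) ⊆ {i, j, k})
    have h2 := card_le_three (a := i) (b := j) (c := k)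
    simp at h1
    omega
  obtain ⟨m, hm⟩ : ∃ m, m ∉ ({i, j, k, l} : Finset (Fin 6)) := by
    by_contra h
    push Not at h
    have h1 := card_le_card (fun x _ => h x : (univ : Finset (Fin 6)) ⊆ {i, j, k, l})
    have h2 := card_le_four (a := i) (b := j) (c := k) (d := l)
    simp at h1
    omega
  obtain ⟨p, hp⟩ : ∃ p, p ∉ ({i, j, k, l, m} : Finset (Fin 6)) := by
    by_contra h
    push Not at h
    have h1 := card_le_card (fun x _ => h x : (univ : Finset (Fin 6)) ⊆ {i, j, k, l, m})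
    have h2 := card_le_five (a := i) (b := j) (c := k) (d := l) (e := m)
    simp at h1
    omega
  simp only [mem_insert, mem_singleton, not_or] at hl hm hp
  refine ⟨l, m, p, ?_, hl, hm, hp⟩
  refine eq_univ_of_card _ ?_
  rw [card_insert_of_notMem, card_insert_of_notMem, card_insert_of_notMem, card_insert_of_notMem,
    card_insert_of_notMem, card_singleton]
  · rfl
  · simp only [mem_singleton]; exact fun h => hp.2.2.2.2 h.symm
  · simp only [mem_insert, mem_singleton, not_or]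
    exact ⟨fun h => hm.2.2.2 h.symm, fun h => hp.2.2.2.1 h.symm⟩
  · simp only [mem_insert, mem_singleton, not_or]
    exact ⟨fun h => hl.2.2 h.symm, fun h => hm.2.2.1 h.symm, fun h => hp.2.2.1 h.symm⟩
  · simp only [mem_insert, mem_singleton, not_or]
    exact ⟨hjk, fun h => hl.2.1 h.symm, fun h => hm.2.1 h.symm, fun h => hp.2.1 h.symm⟩
  · simp only [mem_insert, mem_singleton, not_or]
    exact ⟨hij, hik, fun h => hl.1 h.symm, fun h => hm.1 h.symm, fun h => hp.1 h.symm⟩

/-- The spin inequality with prescribed signs. -/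
theorem spin_six {w a : Fin 6 → ℤ} (ha : Site a) (hmin : ∀ b, Site b → cost w a ≤ cost w b)
    {i j k l m p : Fin 6} (h : ({i, j, k, l, m, p} : Finset (Fin 6)) = univ)
    (hij : i ≠ j) (hik : i ≠ k) (hjk : j ≠ k)
    (hl : l ≠ i ∧ l ≠ j ∧ l ≠ k) (hm : m ≠ i ∧ m ≠ j ∧ m ≠ k ∧ m ≠ l)
    (hp : p ≠ i ∧ p ≠ j ∧ p ≠ k ∧ p ≠ l ∧ p ≠ m) {s1 s2 s3 s4 s5 s6 : ℤ}
    (h1 : s1 = 1 ∨ s1 = -1) (h2 : s2 = 1 ∨ s2 = -1) (h3 : s3 = 1 ∨ s3 = -1)
    (h4 : s4 = 1 ∨ s4 = -1) (h5 : s5 = 1 ∨ s5 = -1) (h6 : s6 = 1 ∨ s6 = -1)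
    (hs : (s1 + s2 + s3 + s4 + s5 + s6) % 4 = 2) :
    s1 * pos w a i + s2 * pos w a j + s3 * pos w a k + s4 * pos w a l + s5 * pos w a m +
      s6 * pos w a p ≤ 49 - 14 * (a 0 % 2) := by
  set σ : Fin 6 → ℤ := fun x => if x = i then s1 else if x = j then s2 else if x = k then s3 else
    if x = l then s4 else if x = m then s5 else s6 with hσ
  have e1 : σ i = s1 := by simp [hσ]
  have e2 : σ j = s2 := by simp [hσ, hij.symm]
  have e3 : σ k = s3 := by simp [hσ, hik.symm, hjk.symm]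
  have e4 : σ l = s4 := by simp [hσ, hl]
  have e5 : σ m = s5 := by simp [hσ, hm]
  have e6 : σ p = s6 := by simp [hσ, hp]
  have hA := spin_le (σ := σ) ha hmin (by
    intro x
    simp only [hσ]
    split_ifs <;> assumption) (by
    rw [sum_six h, e1, e2, e3, e4, e5, e6]
    exact hs)
  rw [sum_six h, e1, e2, e3, e4, e5, e6] at hA
  exact hA

theorem mod_four_even {x y : ℤ} (h : x % 4 = (2 * y) % 4) (hy : y % 2 = 0) : x % 4 = 0 := by
  omega

theorem mod_four_odd {x y : ℤ} (h : x % 4 = (2 * y) % 4) (hy : y % 2 = 1) : x % 4 = 2 := by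
  omega

theorem mod_aux {x y z : ℤ} (h : x % 4 = 0) (h' : y % 4 = 2) (hz : 2 * z = x + y - 4) : z % 2 = 1 := by
  omega

theorem abs_two_aux {x y : ℤ} (h1 : 1 < |x|) (h2 : |x| + |y| ≤ 2) (h3 : 0 ≤ |y|) (h4 : x % 2 = 1) :
    False := by
  have h5 : |x| = 2 := by omega
  rcases abs_cases x with ⟨h, _⟩ | ⟨h, _⟩ <;> omega

theorem par_cases {s1 s2 s3 : ℤ} (h1 : s1 = 1 ∨ s1 = -1) (h2 : s2 = 1 ∨ s2 = -1)
    (h3 : s3 = 1 ∨ s3 = -1) :
    ((s1 + s2 + s3 + 1 + 1 + 1) % 4 = 2 ∧ (s1 + s2 + s3 + 1 + -1 + -1) % 4 = 2 ∧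
      (s1 + s2 + s3 + -1 + 1 + -1) % 4 = 2 ∧ (s1 + s2 + s3 + -1 + -1 + 1) % 4 = 2) ∨
    ((s1 + s2 + s3 + -1 + -1 + -1) % 4 = 2 ∧ (s1 + s2 + s3 + -1 + 1 + 1) % 4 = 2 ∧
      (s1 + s2 + s3 + 1 + -1 + 1) % 4 = 2 ∧ (s1 + s2 + s3 + 1 + 1 + -1) % 4 = 2) := by
  rcases h1 with rfl | rfl <;> rcases h2 with rfl | rfl <;> rcases h3 with rfl | rfl <;> norm_num

/-- Two sites of different classes. -/
theorem diff_class {w w' a a' : Fin 6 → ℤ} (ha : Site a) (ha' : Site a')
    (hmin : ∀ b, Site b → cost w a ≤ cost w b) (hmin' : ∀ b, Site b → cost w' a' ≤ cost w' b)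
    (hw : ∀ j, -1 ≤ w j + w' j ∧ w j + w' j ≤ 1) (hc : a 0 % 2 = 0) (hc' : a' 0 % 2 = 1) :
    Good (a + a' - cen) := by
  set g : Fin 6 → ℤ := a + a' - cen with hg
  have hgi : ∀ i, g i = a i + a' i - cen i := fun i => rfl
  have hz : ∀ i, pos w a i + pos w' a' i = 2 * (w i + w' i) - 14 * g i := by
    intro i
    rw [hgi]
    unfold pos
    ring
  have heven : ∀ i, g i % 2 = 0 := by
    intro i
    rw [hgi]
    have h1 := ha.1 i
    have h2 := ha'.1 i
    rcases cen_cases i with h | h <;> rw [h] <;> omega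
  choose γ hγ using fun i => (Int.emod_two_eq_zero_or_one (g i)).elim
    (fun h => (⟨g i / 2, by omega⟩ : ∃ c, g i = 2 * c)) (fun h => absurd (heven i) (by omega))
  have hsum : (∑ i, γ i) % 2 = 1 := by
    have h0 : ∑ i, g i = ∑ i, a i + ∑ i, a' i - 4 := by
      simp only [hgi, sum_sub_distrib, sum_add_distrib, cen_sum]
    have h00 : ∑ i, g i = 2 * ∑ i, γ i := by
      rw [mul_sum]
      exact sum_congr rfl fun i _ => hγ i
    have h1 := mod_four_even ha.2 hc
    have h2 := mod_four_odd ha'.2 hc'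
    rw [h00] at h0
    exact mod_aux h1 h2 h0
  have habs : ∀ i, 28 * |γ i| - 2 ≤ |pos w a i| + |pos w' a' i| := by
    intro i
    have h1 := abs_add_le (pos w a i) (pos w' a' i)
    have h2 := aux_abs (g := γ i) (c := 28) (by norm_num) (hw i).1 (hw i).2
    rw [hz i, hγ i] at h1
    have h3 : 2 * (w i + w' i) - 14 * (2 * γ i) = 2 * (w i + w' i) - 28 * γ i := by ring
    rw [h3] at h1
    exact h2.trans h1
  have hpair : ∀ i j, i ≠ j → |pos w a i| + |pos w a j| ≤ 28 ∧ |pos w' a' i| + |pos w' a' j| ≤ 28 :=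
    fun i j hj => ⟨abs_le_28 ha hmin hj, abs_le_28 ha' hmin' hj⟩
  have hle2 : ∀ i j, i ≠ j → |γ i| + |γ j| ≤ 2 := by
    intro i j hij
    exact aux_sum (habs i) (habs j) (hpair i j hij).1 (hpair i j hij).2
  -- no entry has absolute value two
  have hle1 : ∀ i, |γ i| ≤ 1 := by
    intro i
    by_contra hcon
    push Not at hcon
    have hj : ∀ j, j ≠ i → γ j = 0 := by
      intro j hj
      have h1 := hle2 i j hj.symm
      have h2 := abs_nonneg (γ j)
      exact abs_eq_zero.1 (by omega)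
    have hs : ∑ j, γ j = γ i := by
      refine sum_eq_single i (fun j _ hji => hj j hji) fun h => absurd (mem_univ i) h
    rw [hs] at hsum
    obtain ⟨k, hk⟩ : ∃ k : Fin 6, k ≠ i := exists_ne i
    exact abs_two_aux hcon (hle2 i k hk.symm) (abs_nonneg (γ k)) hsum
  have hval : ∀ i, γ i = 0 ∨ γ i = 1 ∨ γ i = -1 := by
    intro i
    have := hle1 i
    rcases abs_cases (γ i) with ⟨h, _⟩ | ⟨h, _⟩ <;> omega
  right
  -- there is a nonzero entry
  have hex : ∃ i, γ i ≠ 0 := by
    by_contra h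
    push Not at h
    rw [sum_eq_zero fun i _ => h i] at hsum
    omega
  obtain ⟨i, hi⟩ := hex
  refine ⟨i, ?_, ?_⟩
  · rw [hγ i]
    have := hval i
    omega
  intro j hji
  by_contra hgj
  have hj : γ j ≠ 0 := by
    rw [hγ j] at hgj
    omega
  -- there is a third nonzero entry
  have hex3 : ∃ k, k ≠ i ∧ k ≠ j ∧ γ k ≠ 0 := by
    by_contra h
    push Not at h
    have hs : ∑ x, γ x = γ i + γ j := by
      rw [← sum_subset (subset_univ ({i, j} : Finset (Fin 6))) ?_, sum_pair hji.symm]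
      intro x _ hx
      simp only [mem_insert, mem_singleton, not_or] at hx
      exact h x hx.1 hx.2
    rw [hs] at hsum
    have h1 := hval i
    have h2 := hval j
    omega
  obtain ⟨k, hki, hkj, hk⟩ := hex3
  obtain ⟨l, m, p, hu, hl, hm, hp⟩ := exists_six i j k hji.symm hki.symm hkj.symm
  have S := fun {s1 s2 s3 s4 s5 s6 : ℤ} => spin_six (s1 := s1) (s2 := s2) (s3 := s3) (s4 := s4)
    (s5 := s5) (s6 := s6) ha' hmin' hu hji.symm hki.symm hkj.symm hl hm hp
  rw [hc'] at S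
  have zi := hz i
  have zj := hz j
  have zk := hz k
  rw [hγ i] at zi
  rw [hγ j] at zj
  rw [hγ k] at zk
  have wi := hw i
  have wj := hw j
  have wk := hw k
  have rij := fun {s t : ℤ} => root_le (s := s) (t := t) ha hmin hji.symm
  have rik := fun {s t : ℤ} => root_le (s := s) (t := t) ha hmin hki.symm
  have rjk := fun {s t : ℤ} => root_le (s := s) (t := t) ha hmin hkj.symm
  have p1 : (1 : ℤ) = 1 ∨ (1 : ℤ) = -1 := Or.inl rfl
  have m1 : (-1 : ℤ) = 1 ∨ (-1 : ℤ) = -1 := Or.inr rfl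
  have fin : ∀ s1 s2 s3 : ℤ, (s1 = 1 ∨ s1 = -1) → (s2 = 1 ∨ s2 = -1) → (s3 = 1 ∨ s3 = -1) →
      γ i = -s1 → γ j = -s2 → γ k = -s3 → False := by
    intro s1 s2 s3 h1 h2 h3 e1 e2 e3
    rw [e1] at zi
    rw [e2] at zj
    rw [e3] at zk
    have q1 := rij h1 h2
    have q2 := rik h1 h3
    have q3 := rjk h2 h3
    -- the four sign patterns
    rcases par_cases h1 h2 h3 with ⟨a1, a2, a3, a4⟩ | ⟨a1, a2, a3, a4⟩
    · have t1 := S h1 h2 h3 p1 p1 p1 a1
      have t2 := S h1 h2 h3 p1 m1 m1 a2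
      have t3 := S h1 h2 h3 m1 p1 m1 a3
      have t4 := S h1 h2 h3 m1 m1 p1 a4
      rcases h1 with rfl | rfl <;> rcases h2 with rfl | rfl <;> rcases h3 with rfl | rfl <;> linarith
    · have t1 := S h1 h2 h3 m1 m1 m1 a1
      have t2 := S h1 h2 h3 m1 p1 p1 a2
      have t3 := S h1 h2 h3 p1 m1 p1 a3
      have t4 := S h1 h2 h3 p1 p1 m1 a4
      rcases h1 with rfl | rfl <;> rcases h2 with rfl | rfl <;> rcases h3 with rfl | rfl <;> linarith
  exact fin (-γ i) (-γ j) (-γ k) (aux_pm (hval i) hi) (aux_pm (hval j) hj) (aux_pm (hval k) hk)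
    (by ring) (by ring) (by ring)

/-- Almost opposite grid points go to sites whose sum lies in the block. -/
theorem near_good {w w' : Fin 6 → ℤ} (hw : ∀ j, -1 ≤ w j + w' j ∧ w j + w' j ≤ 1) :
    Good (near w + near w' - cen) := by
  have h1 := near_site w
  have h2 := near_site w'
  have m1 : ∀ b, Site b → cost w (near w) ≤ cost w b := fun b hb => near_le w hb
  have m2 : ∀ b, Site b → cost w' (near w') ≤ cost w' b := fun b hb => near_le w' hb
  rcases Int.emod_two_eq_zero_or_one (near w 0) with h | h <;>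
    rcases Int.emod_two_eq_zero_or_one (near w' 0) with h' | h'
  · exact same_class h1 h2 m1 m2 hw (by rw [h, h'])
  · exact diff_class h1 h2 m1 m2 hw h h'
  · have hw' : ∀ j, -1 ≤ w' j + w j ∧ w' j + w j ≤ 1 := fun j => by
      have := hw j
      omega
    have := diff_class h2 h1 m2 m1 hw' h' h
    rwa [add_comm (near w') (near w)] at this
  · exact same_class h1 h2 m1 m2 hw (by rw [h, h'])

theorem near_bound (w : Fin 6 → ℤ) (i : Fin 6) : |w i| ≤ 18 * (|near w i| + 1) := by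
  have m1 : ∀ b, Site b → cost w (near w) ≤ cost w b := fun b hb => near_le w hb
  obtain ⟨k, hk⟩ : ∃ k : Fin 6, k ≠ i := exists_ne i
  have h1 := abs_le_28 (near_site w) m1 hk.symm
  have h2 := abs_nonneg (pos w (near w) k)
  have h3 : |pos w (near w) i| ≤ 28 := by omega
  unfold pos at h3
  rw [abs_le] at h3
  rcases cen_cases i with h | h <;> rw [h] at h3 <;>
    rcases abs_cases (w i) with ⟨e, _⟩ | ⟨e, _⟩ <;>
    rcases abs_cases (near w i) with ⟨e', _⟩ | ⟨e', _⟩ <;> rw [e, e'] <;> omega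

end Pool.Agent.Lib.Helper4.CS
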