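import Pool.Agent.Lib.Helper4.CS.LS

set_option autoImplicit false

open Finset

namespace Pool.Agent.Lib.Helper4.CS

/-- Two grid points are almost opposite. -/
def Near {ι : Type*} (w w' : ι → ℤ) : Prop := ∀ j, -1 ≤ w j + w' j ∧ w j + w' j ≤ 1

/-- The grid theorem for an arbitrary finite index type. -/
theorem gridLS' {ι : Type*} {n : ℕ} (e : ι ≃ Fin n) (hn : 0 < n) {R : ℤ} (hR : 0 < R)
    (χ : (ι → ℤ) → ℕ) (hχ : ∀ v, χ v < n) :
    ∃ (v v' : ι → ℤ) (i : ι), (v i = R ∨ v i = -R) ∧ v' i = -v i ∧ Near v v' ∧ χ v = χ v' := by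
  obtain ⟨v, v', i, h1, h2, h3, h4⟩ := gridLS hn hR (fun u => χ fun j => u (e j)) fun _ => hχ _
  refine ⟨fun j => v (e j), fun j => v' (e j), e.symm i, ?_, ?_, fun j => h3 (e j), h4⟩
  · simpa using h1
  · simpa using h2

/-- The symmetric monochromatic sets. -/
theorem central_aux {ι : Type*} [Fintype ι] {n : ℕ} (e : ι ≃ Fin n) (hn : 0 < n)
    (φ : (ι → ℤ) → (ι → ℤ)) (E : Finset (ι → ℤ)) (C : ℤ)
    (hφ : ∀ w w' : ι → ℤ, Near w w' → φ w + φ w' ∈ E)
    (hC : ∀ w i, |w i| ≤ C * (|φ w i| + 1)) (χ : (ι → ℤ) → ℕ) (hχ : ∀ v, χ v < n) :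
    ∃ x ∈ E, ∃ c : ℕ, {y : ι → ℤ | χ y = c ∧ χ (x + x - y) = c}.Infinite := by
  classical
  by_contra hcon
  push Not at hcon
  have hfin : (⋃ x ∈ E, ⋃ c ∈ range n, {y : ι → ℤ | χ y = c ∧ χ (x + x - y) = c}).Finite := by
    refine Set.Finite.biUnion E.finite_toSet fun x hx => Set.Finite.biUnion (range n).finite_toSet
      fun c _ => ?_
    exact hcon x hx c
  obtain ⟨B, hB⟩ : ∃ B : ℤ, ∀ y ∈ (⋃ x ∈ E, ⋃ c ∈ range n, {y : ι → ℤ | χ y = c ∧ χ (x + x - y) = c}),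
      ∀ i, |y i| ≤ B := by
    refine ⟨∑ y ∈ hfin.toFinset, ∑ i, |y i|, fun y hy i => ?_⟩
    calc |y i| ≤ ∑ i, |y i| := single_le_sum (f := fun i => |y i|) (fun _ _ => abs_nonneg _) (mem_univ i)
      _ ≤ _ := single_le_sum (f := fun y : ι → ℤ => ∑ i, |y i|)
          (fun _ _ => sum_nonneg fun _ _ => abs_nonneg _) (hfin.mem_toFinset.2 hy)
  have hC0 : 0 ≤ C := by
    have i : ι := e.symm ⟨0, hn⟩
    by_contra h
    have h1 := hC (fun _ => 0) i
    have h2 := abs_nonneg (φ (fun _ => 0) i)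
    have h3 := abs_nonneg ((fun _ => (0 : ℤ)) i)
    nlinarith
  set R : ℤ := C * (|B| + 1) + 1 with hR
  have hR0 : 0 < R := by positivity
  obtain ⟨v, v', i, h1, -, h3, h4⟩ := gridLS' e hn hR0 (fun u => χ (φ u + φ u)) fun _ => hχ _
  have hx := hφ v v' h3
  have hy : φ v + φ v ∈ (⋃ x ∈ E, ⋃ c ∈ range n, {y : ι → ℤ | χ y = c ∧ χ (x + x - y) = c}) := by
    simp only [Set.mem_iUnion]
    refine ⟨φ v + φ v', hx, χ (φ v + φ v), mem_range.2 (hχ _), rfl, ?_⟩
    have : φ v + φ v' + (φ v + φ v') - (φ v + φ v) = φ v' + φ v' := by abel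
    rw [this]
    exact h4.symm
  have h5 := hB _ hy i
  have h6 := hC v i
  have h7 : |v i| = R := by
    rcases h1 with h | h
    · rw [h, abs_of_pos hR0]
    · rw [h, abs_neg, abs_of_pos hR0]
  have h8 : |φ v i| ≤ B := by
    have : |(φ v + φ v) i| = 2 * |φ v i| := by
      rw [Pi.add_apply, ← two_mul, abs_mul, abs_two]
    rw [this] at h5
    have := abs_nonneg (φ v i)
    linarith
  have h9 : B ≤ |B| := le_abs_self B
  rw [h7, hR] at h6
  nlinarith

/-- `E` is a central set of `ℤ^n`: for every colouring of `ℤ^n` with at most `n` colours there are an infinite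
monochromatic set `A` and a point `x` of `E` with `A = 2 x - A`. -/
def IsCentral (n : ℕ) (E : Set (Fin n → ℤ)) : Prop :=
  ∀ r : ℕ, r ≤ n → ∀ χ : (Fin n → ℤ) → Fin r, ∃ A : Set (Fin n → ℤ), A.Infinite ∧
    (∃ c, ∀ a ∈ A, χ a = c) ∧ ∃ x ∈ E, A = (fun a => 2 • x - a) '' A

theorem central_of_hom {n : ℕ} (E : Finset (Fin n → ℤ))
    (h : ∀ χ : (Fin n → ℤ) → ℕ, (∀ v, χ v < n) →
      ∃ x ∈ E, ∃ c : ℕ, {y : Fin n → ℤ | χ y = c ∧ χ (x + x - y) = c}.Infinite) :
    IsCentral n (E : Set (Fin n → ℤ)) := by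
  intro r hr χ
  obtain ⟨x, hx, c, hc⟩ := h (fun y => (χ y).val) fun v => (χ v).isLt.trans_le hr
  refine ⟨_, hc, ?_, x, hx, ?_⟩
  · obtain ⟨a, ha⟩ := hc.nonempty
    refine ⟨χ a, fun b hb => Fin.ext ?_⟩
    exact hb.1.trans ha.1.symm
  · ext y
    rw [Set.mem_image]
    constructor
    · rintro ⟨h1, h2⟩
      refine ⟨2 • x - y, ⟨?_, ?_⟩, by abel⟩
      · show (χ (2 • x - y)).val = c
        rw [two_smul]
        exact h2
      · show (χ (x + x - (2 • x - y))).val = c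
        have : x + x - (2 • x - y) = y := by rw [two_smul]; abel
        rw [this]
        exact h1
    · rintro ⟨a, ⟨h1, h2⟩, rfl⟩
      refine ⟨?_, ?_⟩
      · show (χ (2 • x - a)).val = c
        rw [two_smul]
        exact h2
      · show (χ (x + x - (2 • x - a))).val = c
        have : x + x - (2 • x - a) = a := by rw [two_smul]; abel
        rw [this]
        exact h1

end Pool.Agent.Lib.Helper4.CS
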