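import Mathlib

/-!
# A grid form of the Lusternik-Schnirelmann theorem

For every colouring of the grid `ℤ^n` with `n` colours and every `R > 0` there are two points of the same
colour on the boundary of the cube of radius `R` which are almost opposite.  The proof counts, modulo 2,
flags of faces of the cube with alternating signs.
-/

set_option autoImplicit false

open Finset

namespace Pool.Agent.Lib.Helper4.CS

variable {n : ℕ}

/-- Coordinate `i` raised by one. -/
def up (w : Fin n → ℤ) (i : Fin n) : Fin n → ℤ := Function.update w i (w i + 1)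

/-- The sum over the facets of the face `(w, S)`. -/
def dd (f : (Fin n → ℤ) → Finset (Fin n) → ZMod 2) (w : Fin n → ℤ) (S : Finset (Fin n)) : ZMod 2 :=
  ∑ i ∈ S, (f w (S.erase i) + f (up w i) (S.erase i))

theorem add_self2 (x : ZMod 2) : x + x = 0 := CharTwo.add_self_eq_zero x

theorem up_comm (w : Fin n → ℤ) {i j : Fin n} (h : i ≠ j) : up (up w i) j = up (up w j) i := by
  unfold up
  rw [Function.update_of_ne h.symm, Function.update_of_ne h, Function.update_comm h.symm]

theorem dd_dd (f : (Fin n → ℤ) → Finset (Fin n) → ZMod 2) (w : Fin n → ℤ) (S : Finset (Fin n)) :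
    dd (dd f) w S = 0 := by
  unfold dd
  have h1 : ∀ i ∈ S, ((∑ j ∈ S.erase i, (f w ((S.erase i).erase j) + f (up w j) ((S.erase i).erase j))) +
      ∑ j ∈ S.erase i, (f (up w i) ((S.erase i).erase j) + f (up (up w i) j) ((S.erase i).erase j))) =
      ∑ j ∈ S.erase i, (f w ((S.erase i).erase j) + f (up w j) ((S.erase i).erase j) +
        (f (up w i) ((S.erase i).erase j) + f (up (up w i) j) ((S.erase i).erase j))) := by
    intro i _
    rw [← sum_add_distrib]
  rw [sum_congr rfl h1, sum_sigma']
  refine sum_involution (fun p _ => ⟨p.2, p.1⟩) ?_ ?_ ?_ ?_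
  · rintro ⟨i, j⟩ hij
    simp only [mem_sigma, mem_erase] at hij
    have hne : i ≠ j := fun h => hij.2.1 h.symm
    simp only [erase_right_comm (a := j) (b := i), up_comm w hne]
    have : ∀ a b c d : ZMod 2, a + b + (c + d) + (a + c + (b + d)) = 0 := by decide
    exact this _ _ _ _
  · rintro ⟨i, j⟩ hij _ h
    simp only [mem_sigma, mem_erase] at hij
    exact hij.2.1 (congrArg Sigma.fst h)
  · rintro ⟨i, j⟩ hij
    simp only [mem_sigma, mem_erase] at hij ⊢
    exact ⟨hij.2.2, fun h => hij.2.1 h.symm, hij.1⟩
  · rintro ⟨i, j⟩ _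
    rfl

/-- The number (mod 2) of complete flags of the face `(w, S)`, `S` with `k` elements, whose signs alternate, the
sign of the face itself being `b`. -/
def P (s : (Fin n → ℤ) → Finset (Fin n) → Bool) : ℕ → Bool → (Fin n → ℤ) → Finset (Fin n) → ZMod 2
  | 0, b, w, S => if s w S = b then 1 else 0
  | (k + 1), b, w, S => if s w S = b then dd (P s k (!b)) w S else 0

theorem dd_add (f g : (Fin n → ℤ) → Finset (Fin n) → ZMod 2) (w : Fin n → ℤ) (S : Finset (Fin n)) :
    dd f w S + dd g w S = dd (fun w S => f w S + g w S) w S := by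
  unfold dd
  rw [← sum_add_distrib]
  refine sum_congr rfl fun i _ => by ring

theorem dd_congr {f g : (Fin n → ℤ) → Finset (Fin n) → ZMod 2} {w : Fin n → ℤ} {S : Finset (Fin n)}
    (h : ∀ i ∈ S, f w (S.erase i) = g w (S.erase i) ∧ f (up w i) (S.erase i) = g (up w i) (S.erase i)) :
    dd f w S = dd g w S := by
  unfold dd
  refine sum_congr rfl fun i hi => by rw [(h i hi).1, (h i hi).2]

theorem P_zero_add (s : (Fin n → ℤ) → Finset (Fin n) → Bool) (w : Fin n → ℤ) (S : Finset (Fin n)) :
    P s 0 true w S + P s 0 false w S = 1 := by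
  unfold P
  cases s w S <;> simp

theorem P_succ_add (s : (Fin n → ℤ) → Finset (Fin n) → Bool) (k : ℕ) (w : Fin n → ℤ)
    (S : Finset (Fin n)) (h : dd (P s k true) w S = dd (P s k false) w S) (b : Bool) :
    P s (k + 1) true w S + P s (k + 1) false w S = dd (P s k b) w S := by
  have h1 : P s (k + 1) true w S = if s w S = true then dd (P s k false) w S else 0 := rfl
  have h2 : P s (k + 1) false w S = if s w S = false then dd (P s k true) w S else 0 := rfl
  rw [h1, h2, h]
  cases s w S <;> cases b <;> simp [h]

theorem star (s : (Fin n → ℤ) → Finset (Fin n) → Bool) (k : ℕ) : ∀ (w : Fin n → ℤ)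
    (S : Finset (Fin n)), S.card = k + 1 → dd (P s k true) w S = dd (P s k false) w S := by
  induction k with
  | zero =>
    intro w S hS
    have h0 : dd (P s 0 true) w S + dd (P s 0 false) w S = 0 := by
      rw [dd_add]
      have : dd (fun w S => P s 0 true w S + P s 0 false w S) w S = dd (fun _ _ => 1) w S :=
        dd_congr fun i _ => ⟨P_zero_add s _ _, P_zero_add s _ _⟩
      rw [this]
      unfold dd
      exact sum_eq_zero fun i _ => (by decide : (1 : ZMod 2) + 1 = 0)
    have h1 := add_self2 (dd (P s 0 false) w S)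
    exact add_right_cancel (h0.trans h1.symm)
  | succ k ih =>
    intro w S hS
    have h0 : dd (P s (k + 1) true) w S + dd (P s (k + 1) false) w S = 0 := by
      rw [dd_add]
      have : dd (fun w S => P s (k + 1) true w S + P s (k + 1) false w S) w S =
          dd (dd (P s k true)) w S := by
        refine dd_congr fun i hi => ?_
        have hc : (S.erase i).card = k + 1 := by
          rw [card_erase_of_mem hi, hS]; rfl
        exact ⟨P_succ_add s k _ _ (ih _ _ hc) true, P_succ_add s k _ _ (ih _ _ hc) true⟩
      rw [this, dd_dd]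
    have h1 := add_self2 (dd (P s (k + 1) false) w S)
    exact add_right_cancel (h0.trans h1.symm)

theorem P_add (s : (Fin n → ℤ) → Finset (Fin n) → Bool) (k : ℕ) (w : Fin n → ℤ)
    (S : Finset (Fin n)) (hS : S.card = k + 1) (b : Bool) :
    P s (k + 1) b w S + P s (k + 1) (!b) w S = dd (P s k true) w S := by
  have h := P_succ_add s k w S (star s k w S hS) true
  cases b
  · rw [Bool.not_false, add_comm]; exact h
  · exact h

/-- The sum over a box of faces. -/
def BX (A : Fin n → Finset ℤ) (S : Finset (Fin n))
    (f : (Fin n → ℤ) → Finset (Fin n) → ZMod 2) : ZMod 2 := ∑ w ∈ Fintype.piFinset A, f w S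

theorem sum_coord (i : Fin n) (A : Fin n → Finset ℤ) (a : ℤ) (F : (Fin n → ℤ) → ZMod 2) :
    ∑ w ∈ Fintype.piFinset A, F w =
      ∑ t ∈ A i, ∑ w ∈ Fintype.piFinset (Function.update A i {a}), F (Function.update w i t) := by
  rw [← sum_product']
  symm
  refine sum_nbij' (fun p => Function.update p.2 i p.1) (fun w => (w i, Function.update w i a))
    ?_ ?_ ?_ ?_ ?_
  · rintro ⟨t, w⟩ h
    rw [mem_product, Fintype.mem_piFinset] at h
    rw [Fintype.mem_piFinset]
    intro j
    by_cases hj : j = i
    · subst hj
      simpa using h.1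
    · have := h.2 j
      simp only [Function.update_of_ne hj] at this ⊢
      exact this
  · intro w h
    rw [Fintype.mem_piFinset] at h
    rw [mem_product, Fintype.mem_piFinset]
    refine ⟨h i, fun j => ?_⟩
    by_cases hj : j = i
    · subst hj
      simp
    · simp only [Function.update_of_ne hj]
      exact h j
  · rintro ⟨t, w⟩ h
    rw [mem_product, Fintype.mem_piFinset] at h
    have := h.2 i
    simp only [Function.update_self, mem_singleton] at this
    simp only [Function.update_self, Function.update_idem, Prod.mk.injEq, true_and]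
    rw [← this, Function.update_eq_self]
  · intro w _
    simp
  · rintro ⟨t, w⟩ _
    rfl

theorem BX_split (A : Fin n → Finset ℤ) (i : Fin n) (B C : Finset ℤ) (hBC : Disjoint B C)
    (hA : A i = B ∪ C) (S : Finset (Fin n)) (f : (Fin n → ℤ) → Finset (Fin n) → ZMod 2) :
    BX A S f = BX (Function.update A i B) S f + BX (Function.update A i C) S f := by
  unfold BX
  rw [sum_coord i A 0, sum_coord i (Function.update A i B) 0, sum_coord i (Function.update A i C) 0,
    hA, sum_union hBC]
  simp only [Function.update_self, Function.update_idem]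

theorem tele (g : ℤ → ZMod 2) (l h : ℤ) (hlh : l ≤ h) : ∑ t ∈ Ico l h, (g t + g (t + 1)) = g l + g h := by
  induction h, hlh using Int.leInduction with
  | base => rw [Ico_self, sum_empty, add_self2]
  | succ h hl ih =>
    have : Ico l (h + 1) = insert h (Ico l h) := by
      ext x
      simp only [mem_Ico, mem_insert]
      omega
    rw [this, sum_insert (by simp), ih]
    have : ∀ a b c : ZMod 2, a + b + (c + a) = c + b := by decide
    exact this _ _ _

/-- The Stokes formula for boxes. -/
theorem stokes (A : Fin n → Finset ℤ) (l h : Fin n → ℤ) (S : Finset (Fin n))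
    (hA : ∀ i ∈ S, A i = Ico (l i) (h i)) (hlh : ∀ i ∈ S, l i ≤ h i)
    (f : (Fin n → ℤ) → Finset (Fin n) → ZMod 2) :
    BX A S (dd f) = ∑ i ∈ S, (BX (Function.update A i {l i}) (S.erase i) f +
      BX (Function.update A i {h i}) (S.erase i) f) := by
  unfold BX dd
  rw [sum_comm]
  refine sum_congr rfl fun i hi => ?_
  rw [sum_coord i A 0, sum_coord i (Function.update A i {l i}) 0,
    sum_coord i (Function.update A i {h i}) 0, hA i hi]
  simp only [Function.update_self, Function.update_idem, sum_singleton]
  have h1 : ∀ t w, (f (Function.update w i t) (S.erase i) +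
      f (up (Function.update w i t) i) (S.erase i)) =
      f (Function.update w i t) (S.erase i) + f (Function.update w i (t + 1)) (S.erase i) := by
    intro t w
    unfold up
    rw [Function.update_self, Function.update_idem]
  simp only [h1, sum_add_distrib]
  rw [← sum_add_distrib]
  exact tele (fun t => ∑ w ∈ Fintype.piFinset (Function.update A i {0}),
    f (Function.update w i t) (S.erase i)) (l i) (h i) (hlh i hi)

/-- The opposite face. -/
def nw (w : Fin n → ℤ) (S : Finset (Fin n)) : Fin n → ℤ := fun i => -w i - (if i ∈ S then 1 else 0)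

theorem nw_nw (w : Fin n → ℤ) (S : Finset (Fin n)) : nw (nw w S) S = w := by
  funext i
  unfold nw
  split_ifs <;> ring

theorem BX_neg (A A' : Fin n → Finset ℤ) (S : Finset (Fin n))
    (hA : ∀ w, w ∈ Fintype.piFinset A → nw w S ∈ Fintype.piFinset A')
    (hA' : ∀ w, w ∈ Fintype.piFinset A' → nw w S ∈ Fintype.piFinset A)
    (f : (Fin n → ℤ) → Finset (Fin n) → ZMod 2) :
    BX A S f = BX A' S (fun w S => f (nw w S) S) := by
  unfold BX
  refine sum_nbij' (fun w => nw w S) (fun w => nw w S) hA hA' ?_ ?_ ?_
  · intro w _; exact nw_nw w S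
  · intro w _; exact nw_nw w S
  · intro w _; simp only [nw_nw]

theorem nw_erase (w : Fin n → ℤ) {S : Finset (Fin n)} {i : Fin n} (hi : i ∈ S) :
    nw w S = nw (up w i) (S.erase i) := by
  funext j
  unfold nw up
  by_cases hj : j = i
  · subst hj
    simp [hi]
    ring
  · simp [hj]

theorem up_nw (w : Fin n → ℤ) {S : Finset (Fin n)} {i : Fin n} (hi : i ∈ S) :
    up (nw w S) i = nw w (S.erase i) := by
  funext j
  unfold nw up
  by_cases hj : j = i
  · subst hj
    simp [hi]
  · simp [hj]

/-- The face lies on the boundary of the cube of radius `R`. -/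
def Sph (R : ℤ) (w : Fin n → ℤ) (S : Finset (Fin n)) : Prop := ∃ i ∉ S, w i = R ∨ w i = -R

theorem Sph.facet {R : ℤ} {w : Fin n → ℤ} {S : Finset (Fin n)} (h : Sph R w S) {i : Fin n}
    (hi : i ∈ S) : Sph R w (S.erase i) ∧ Sph R (up w i) (S.erase i) := by
  obtain ⟨j, hj, hR⟩ := h
  have hji : j ≠ i := fun h => hj (h ▸ hi)
  refine ⟨⟨j, fun h => hj (mem_of_mem_erase h), hR⟩, ⟨j, fun h => hj (mem_of_mem_erase h), ?_⟩⟩
  unfold up
  rwa [Function.update_of_ne hji]

theorem P_neg {s : (Fin n → ℤ) → Finset (Fin n) → Bool} {R : ℤ}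
    (hs : ∀ w S, Sph R w S → s (nw w S) S = !(s w S)) (k : ℕ) : ∀ (b : Bool) (w : Fin n → ℤ)
    (S : Finset (Fin n)), Sph R w S → P s k b (nw w S) S = P s k (!b) w S := by
  induction k with
  | zero =>
    intro b w S h
    unfold P
    rw [hs w S h]
    cases s w S <;> cases b <;> simp
  | succ k ih =>
    intro b w S h
    have h1 : dd (P s k (!b)) (nw w S) S = dd (P s k (!!b)) w S := by
      unfold dd
      refine sum_congr rfl fun i hi => ?_
      rw [up_nw w hi]
      have h2 := nw_erase w hi
      rw [h2, ih _ _ _ (h.facet hi).1, ih _ _ _ (h.facet hi).2, add_comm]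
    have h3 : P s (k + 1) b (nw w S) S = if s (nw w S) S = b then dd (P s k (!b)) (nw w S) S else 0 := rfl
    have h4 : P s (k + 1) (!b) w S = if s w S = !b then dd (P s k (!!b)) w S else 0 := rfl
    rw [h3, h4, h1, hs w S h]
    cases s w S <;> cases b <;> simp

end Pool.Agent.Lib.Helper4.CS
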