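import Pool.Agent.Lib.Helper4.CS.Central
import Pool.Agent.Lib.Helper4.CS.Block

set_option autoImplicit false

open Finset

namespace Pool.Agent.Lib.Helper4.CS

/-- The thirty-two half spin weights. -/
def G32 : Finset (Fin 6 → ℤ) :=
  (Fintype.piFinset fun _ : Fin 6 => ({-1, 1} : Finset ℤ)).filter fun g => (∑ i, g i) % 4 = 0

/-- The twelve vector weights. -/
def G12 : Finset (Fin 6 → ℤ) :=
  (univ ×ˢ ({-2, 2} : Finset ℤ) : Finset (Fin 6 × ℤ)).image fun p => Pi.single p.1 p.2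

theorem card_G32 : G32.card = 32 := by
  decide +kernel

theorem card_G12 : G12.card = 12 := by
  decide +kernel

theorem disj_G : Disjoint G32 G12 := by
  rw [disjoint_left]
  intro g hg hg'
  unfold G32 at hg
  unfold G12 at hg'
  rw [mem_filter, Fintype.mem_piFinset] at hg
  rw [mem_image] at hg'
  obtain ⟨⟨i, t⟩, -, rfl⟩ := hg'
  obtain ⟨k, hk⟩ : ∃ k : Fin 6, k ≠ i := exists_ne i
  have := hg.1 k
  simp [hk] at this

/-- The block of forty-four points. -/
def S44 : Finset (Fin 6 → ℤ) := (G32 ∪ G12).map (addRightEmbedding cen)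

theorem card_S44 : S44.card = 44 := by
  unfold S44
  rw [card_map, card_union_of_disjoint disj_G, card_G32, card_G12]

theorem mem_S44 {g : Fin 6 → ℤ} (h : Good (g - cen)) : g ∈ S44 := by
  unfold S44
  rw [mem_map]
  refine ⟨g - cen, ?_, by simp⟩
  rw [mem_union]
  rcases h with ⟨h1, h2⟩ | ⟨i, hi, hj⟩
  · left
    unfold G32
    rw [mem_filter, Fintype.mem_piFinset]
    refine ⟨fun j => ?_, h2⟩
    rw [mem_insert, mem_singleton]
    exact (h1 j).symm
  · right
    unfold G12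
    rw [mem_image]
    refine ⟨(i, (g - cen) i), ?_, ?_⟩
    · rw [mem_product, mem_insert, mem_singleton]
      exact ⟨mem_univ _, hi.symm⟩
    · funext j
      by_cases hji : j = i
      · subst hji
        simp
      · rw [Pi.single_apply, if_neg hji, hj j hji]

/-- Joining blocks. -/
def join {q r : ℕ} (p : (Fin q → Fin 6 → ℤ) × (Fin r → ℤ)) : (Fin q × Fin 6) ⊕ Fin r → ℤ :=
  Sum.elim (fun x => p.1 x.1 x.2) p.2

theorem join_inj {q r : ℕ} : Function.Injective (join (q := q) (r := r)) := by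
  rintro ⟨a, b⟩ ⟨a', b'⟩ h
  rw [Prod.mk.injEq]
  constructor
  · funext i j
    exact congrFun h (Sum.inl (i, j))
  · funext j
    exact congrFun h (Sum.inr j)

/-- The central set. -/
def ES (q r : ℕ) : Finset ((Fin q × Fin 6) ⊕ Fin r → ℤ) :=
  ((Fintype.piFinset fun _ : Fin q => S44) ×ˢ (Fintype.piFinset fun _ : Fin r => ({0, 1} : Finset ℤ))).map
    ⟨join, join_inj⟩

theorem card_ES (q r : ℕ) : (ES q r).card = 44 ^ q * 2 ^ r := by
  unfold ES
  rw [card_map, card_product, Fintype.card_piFinset_const, Fintype.card_piFinset_const, card_S44]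
  rfl

/-- The rounding map. -/
noncomputable def rnd (q r : ℕ) (w : (Fin q × Fin 6) ⊕ Fin r → ℤ) : (Fin q × Fin 6) ⊕ Fin r → ℤ :=
  Sum.elim (fun x => near (fun i => w (Sum.inl (x.1, i))) x.2) fun j => (w (Sum.inr j) + 3) / 4

theorem rnd_mem {q r : ℕ} {w w' : (Fin q × Fin 6) ⊕ Fin r → ℤ} (h : Near w w') :
    rnd q r w + rnd q r w' ∈ ES q r := by
  unfold ES
  rw [mem_map]
  refine ⟨(fun a => near (fun i => w (Sum.inl (a, i))) + near (fun i => w' (Sum.inl (a, i))),
    fun j => (w (Sum.inr j) + 3) / 4 + (w' (Sum.inr j) + 3) / 4), ?_, ?_⟩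
  · rw [mem_product, Fintype.mem_piFinset, Fintype.mem_piFinset]
    refine ⟨fun a => mem_S44 (near_good fun i => h (Sum.inl (a, i))), fun j => ?_⟩
    have := h (Sum.inr j)
    rw [mem_insert, mem_singleton]
    show (w (Sum.inr j) + 3) / 4 + (w' (Sum.inr j) + 3) / 4 = 0 ∨
      (w (Sum.inr j) + 3) / 4 + (w' (Sum.inr j) + 3) / 4 = 1
    omega
  · funext x
    rcases x with ⟨a, i⟩ | j
    · rfl
    · rfl

theorem rnd_bound {q r : ℕ} (w : (Fin q × Fin 6) ⊕ Fin r → ℤ) (x) :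
    |w x| ≤ 18 * (|rnd q r w x| + 1) := by
  rcases x with ⟨a, i⟩ | j
  · exact near_bound (fun i => w (Sum.inl (a, i))) i
  · show |w (Sum.inr j)| ≤ 18 * (|(w (Sum.inr j) + 3) / 4| + 1)
    rcases abs_cases (w (Sum.inr j)) with ⟨e, _⟩ | ⟨e, _⟩ <;>
      rcases abs_cases ((w (Sum.inr j) + 3) / 4) with ⟨e', _⟩ | ⟨e', _⟩ <;> rw [e, e'] <;> omega

/-- The upper bound. -/
theorem exists_central (n : ℕ) (hn : 1 ≤ n) : ∃ E : Finset (Fin n → ℤ), IsCentral n E ∧
    E.card = 44 ^ (n / 6) * 2 ^ (n % 6) := by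
  classical
  set q := n / 6 with hq
  set r := n % 6 with hr
  have hcard : Fintype.card ((Fin q × Fin 6) ⊕ Fin r) = n := by
    rw [Fintype.card_sum, Fintype.card_prod, Fintype.card_fin, Fintype.card_fin, Fintype.card_fin]
    omega
  let e : (Fin q × Fin 6) ⊕ Fin r ≃ Fin n := Fintype.equivFinOfCardEq hcard
  let T : ((Fin q × Fin 6) ⊕ Fin r → ℤ) ≃ (Fin n → ℤ) := e.arrowCongr (Equiv.refl ℤ)
  have hT : ∀ x y, T (x + y) = T x + T y := fun x y => rfl
  have hT' : ∀ x y, T.symm (x - y) = T.symm x - T.symm y := fun x y => rfl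
  have hT'' : ∀ x y, T.symm (x + y) = T.symm x + T.symm y := fun x y => rfl
  refine ⟨(ES q r).map T.toEmbedding, ?_, by rw [card_map, card_ES]⟩
  apply central_of_hom
  intro χ hχ
  obtain ⟨x, hx, c, hc⟩ := central_aux e (by omega) (rnd q r) (ES q r) 18 (fun w w' h => rnd_mem h)
    (fun w i => rnd_bound w i) (fun y => χ (T y)) fun _ => hχ _
  refine ⟨T x, mem_map_of_mem _ hx, c, ?_⟩
  have : T '' {y | χ (T y) = c ∧ χ (T (x + x - y)) = c} ⊆
      {y | χ y = c ∧ χ (T x + T x - y) = c} := by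
    rintro _ ⟨y, ⟨h1, h2⟩, rfl⟩
    exact ⟨h1, h2⟩
  exact (hc.image T.injective.injOn).mono this

end Pool.Agent.Lib.Helper4.CS
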